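import Pool.Agent.V1180.TPf

/-! MP_6a2436_an, Q1 (disproof): for every `N ≥ 2` and every `σc > 0`, `σc ≠ 1`, there is a
core `D` with two solutions of the outer two-phase Serrin problem which are not ordered by
inclusion. -/

open MeasureTheory Set Filter Topology Metric
open scoped ContDiff

namespace Pool.Agent.Results.MP_6a2436_an.NotOrdered

open Pool.Agent.V1180.TP

theorem result (N : ℕ) (hN : 2 ≤ N) (σc : ℝ) (hσ : 0 < σc) (hσ1 : σc ≠ 1) :
    ∃ D Ω₁ Ω₂ : Set (EuclideanSpace ℝ (Fin N)),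
      IsSolution σc D Ω₁ ∧ IsSolution σc D Ω₂ ∧ volume Ω₁ < volume Ω₂ ∧ ¬ Ω₁ ⊆ Ω₂ := by
  have hκ : σc⁻¹ - 1 ≠ 0 := by
    intro h
    apply hσ1
    have : σc⁻¹ = 1 := by linarith
    rwa [inv_eq_one] at this
  obtain ⟨k, rfl⟩ : ∃ k, N = k + 1 := ⟨N - 1, by omega⟩
  obtain ⟨R, A, a, b, h1a, hab, hbR, hmR, hI⟩ := exists_shell (k := k) hκ
  have hR0 : 0 < R := by linarith
  obtain ⟨r, hrb, hrR, hrp⟩ : ∃ r, b < r ∧ r < R ∧ R ^ (k+1) - 1 < r ^ (k+1) := by
    have e1 : ∀ᶠ r in 𝓝[<] R, b < r := nhdsWithin_le_nhds (lt_mem_nhds hbR)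
    have e2 : ∀ᶠ r in 𝓝[<] R, r < R := self_mem_nhdsWithin
    have e3 : ∀ᶠ r in 𝓝[<] R, R ^ (k+1) - 1 < r ^ (k+1) := by
      apply nhdsWithin_le_nhds
      have : ContinuousAt (fun r : ℝ => r ^ (k+1)) R := (continuous_pow _).continuousAt
      exact this.eventually (lt_mem_nhds (by simp))
    exact (e1.and (e2.and e3)).exists
  have hr0 : 0 < r := by linarith
  have hcD : IsConnected (Ann (k+1) a b) := connected_Ann hN (by linarith) hab
  have hs1 : IsSolution σc (Ann (k+1) a b) (Ann (k+1) 1 R) := by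
    refine core hN hσ (by linarith) hab h1a hbR (Or.inr one_pos) (Or.inr one_pos) ?_
      (fun _ => hmR) hcD (connected_Ann hN zero_le_one (by linarith))
    intro _
    rw [w_integral hσ h1a hab hbR]
    exact hI
  have hs2 : IsSolution σc (Ann (k+1) a b) (Ann (k+1) (-1) r) := by
    refine core (A := 0) hN hσ (by linarith) hab (by linarith) hrb (Or.inl rfl)
      (Or.inl (by norm_num)) (fun h => absurd h (by norm_num)) (fun h => absurd h (by norm_num))
      hcD (connected_ball' hr0)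
  refine ⟨Ann (k+1) a b, Ann (k+1) 1 R, Ann (k+1) (-1) r, hs1, hs2, ?_, ?_⟩
  · have hfin : Module.finrank ℝ (E (k+1)) = k + 1 := by simp
    set V1 := volume (ball (0 : E (k+1)) 1) with hV1
    have hV1p : V1 ≠ 0 := (measure_ball_pos volume _ one_pos).ne'
    have hV1t : V1 ≠ ⊤ := measure_ball_lt_top.ne
    have hbr : volume (Ann (k+1) (-1) r) = ENNReal.ofReal (r ^ (k+1)) * V1 := by
      rw [Ann_neg, Measure.addHaar_ball _ _ hr0.le, hfin]
    have hbR' : volume (ball (0 : E (k+1)) R) = ENNReal.ofReal (R ^ (k+1)) * V1 := by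
      rw [Measure.addHaar_ball _ _ hR0.le, hfin]
    have hcb : volume (closedBall (0 : E (k+1)) 1) = V1 := by
      rw [Measure.addHaar_closedBall _ _ zero_le_one]
      simp [hV1]
    have hun : ball (0 : E (k+1)) R = Ann (k+1) 1 R ∪ closedBall 0 1 := by
      ext x
      simp only [mem_ball_zero_iff, mem_union, mem_closedBall_zero_iff]
      constructor
      · intro h
        rcases le_or_gt ‖x‖ 1 with h' | h'
        · exact Or.inr h'
        · exact Or.inl ⟨h', h⟩
      · rintro (h | h)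
        · exact h.2
        · linarith
    have hdis : Disjoint (Ann (k+1) 1 R) (closedBall (0 : E (k+1)) 1) := by
      rw [Set.disjoint_left]
      intro x hx hx'
      rw [mem_closedBall_zero_iff] at hx'
      exact absurd hx.1 (not_lt.2 hx')
    have hvol : volume (Ann (k+1) 1 R) + V1 = ENNReal.ofReal (R ^ (k+1)) * V1 := by
      rw [← hbR', hun, measure_union hdis measurableSet_closedBall, hcb]
    have hlt : volume (Ann (k+1) 1 R) + V1 < volume (Ann (k+1) (-1) r) + V1 := by
      rw [hvol, hbr]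
      have e : ENNReal.ofReal (r ^ (k+1)) * V1 + V1 = (ENNReal.ofReal (r ^ (k+1)) + 1) * V1 := by
        rw [add_mul, one_mul]
      rw [e]
      refine (ENNReal.mul_lt_mul_iff_left hV1p hV1t).2 ?_
      rw [← ENNReal.ofReal_one, ← ENNReal.ofReal_add (by positivity) zero_le_one]
      exact (ENNReal.ofReal_lt_ofReal_iff (by positivity)).2 (by linarith)
    exact lt_of_add_lt_add_right hlt
  · intro hsub
    have hx : EuclideanSpace.single (0 : Fin (k+1)) r ∈ Ann (k+1) 1 R := by
      have hn : ‖(EuclideanSpace.single (0 : Fin (k+1)) r : E (k+1))‖ = r := by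
        simp [abs_of_pos hr0]
      exact ⟨by rw [hn]; linarith, by rw [hn]; exact hrR⟩
    have hx' := (hsub hx).2
    have hn : ‖(EuclideanSpace.single (0 : Fin (k+1)) r : E (k+1))‖ = r := by
      simp [abs_of_pos hr0]
    rw [hn] at hx'
    exact lt_irrefl _ hx'

end Pool.Agent.Results.MP_6a2436_an.NotOrdered
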